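import Pool.Agent.Helper93.TH3.StD

/-!
# Project TH (levels `2·3^n`, `W_2 = +1`), module Ld5: leading form of `T_5`

`T_5` lowers degrees by one; its first row in odd degree is `(dX - dY)(F1 - F2)` up to lower degree.
-/

set_option autoImplicit false

namespace Pool.Agent.Helper88.TH3

open Pool.Agent.Helper14.CV (Homog EqC act Tl StFar StFex)
open Pool.Agent.Helper78.W3 (tr Fn3 Tm opL op3 mulT mulL negL Wd3 dX dY oD oN Lw sS M5 bb3 S3PlA S3Trm S3Low0 S3Nf S3Exp S3Lw1 S3Bb mE bE gE)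
open Pool.Agent.Helper93.TH3

section lists

variable {q q' : ℕ}

private lemma opL_nil : (opL [] : Module.End (ZMod 3) (Fn3 q q')) = 0 := by simp [opL]

private lemma opL_cons (t : Tm) (L : List Tm) : (opL (t :: L) : Module.End (ZMod 3) (Fn3 q q')) =
    ((t.1 : ℤ) : ZMod 3) • op3 t.2.1 t.2.2.1 t.2.2.2.1 t.2.2.2.2 + opL L := by simp [opL]

private lemma opL_app (L L' : List Tm) :
    (opL (L ++ L') : Module.End (ZMod 3) (Fn3 q q')) = opL L + opL L' := by simp [opL]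

private lemma sub_smul3 (a b : ZMod 3) (X : Module.End (ZMod 3) (Fn3 q q')) : (a - b) • X = a • X - b • X := by
  refine LinearMap.ext fun F => ?_
  funext x y
  change (a - b) * X F x y = a * X F x y - b * X F x y
  ring

private lemma neg_smul3 (a : ZMod 3) (X : Module.End (ZMod 3) (Fn3 q q')) : (-a) • X = -(a • X) := by
  refine LinearMap.ext fun F => ?_
  funext x y
  change (-a) * X F x y = -(a * X F x y)
  ring

private lemma sum_aux {ι : Type} (S : Finset ι) (a b : ι → ZMod 3) (X : ι → Module.End (ZMod 3) (Fn3 q q')) :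
    ∑ t ∈ S, (a t - b t) • X t = ∑ t ∈ S, a t • X t - ∑ t ∈ S, b t • X t := by
  rw [← Finset.sum_sub_distrib]
  exact Finset.sum_congr rfl fun t _ => sub_smul3 _ _ _

private lemma opL_sc (L : List Tm) : (opL (scT (-1) L) : Module.End (ZMod 3) (Fn3 q q')) = -opL L := by
  induction L with
  | nil => simp [scT, opL_nil]
  | cons t L ih =>
    have h : scT (-1) (t :: L) = (-1 * t.1, t.2) :: scT (-1) L := rfl
    rw [h, opL_cons, opL_cons, ih]
    refine LinearMap.ext fun F => ?_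
    funext x y
    change ((-1 * t.1 : ℤ) : ZMod 3) * op3 t.2.1 t.2.2.1 t.2.2.2.1 t.2.2.2.2 F x y + -(opL L F x y) =
      -((t.1 : ZMod 3) * op3 t.2.1 t.2.2.1 t.2.2.2.1 t.2.2.2.2 F x y + opL L F x y)
    push_cast
    ring

end lists

/-- entries prime to three -/
private def good (L : List Tm) : Prop := ∀ t ∈ L, ¬ (3 : ℤ) ∣ t.2.1 ∧ ¬ (3 : ℤ) ∣ t.2.2.2.2

private lemma good_app {L L' : List Tm} (h : good L) (h' : good L') : good (L ++ L') := by
  intro t ht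
  rcases List.mem_append.1 ht with h1 | h1
  · exact h t h1
  · exact h' t h1

private lemma good_sc {L : List Tm} (n : ℤ) (h : good L) : good (scT n L) := by
  intro t ht
  obtain ⟨u, hu, rfl⟩ := List.mem_map.1 ht
  exact h u hu

private lemma ndvd {a b c : ℤ} (ha : ¬ (3 : ℤ) ∣ a) (hb : ¬ (3 : ℤ) ∣ b) : ¬ (3 : ℤ) ∣ a * b + 9 * c := by
  intro h
  have h1 : (3 : ℤ) ∣ a * b := by
    have h2 : a * b = (a * b + 9 * c) - 3 * (3 * c) := by ring
    rw [h2]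
    exact dvd_sub h (Dvd.intro _ rfl)
  rcases Int.prime_three.dvd_or_dvd h1 with h2 | h2
  · exact ha h2
  · exact hb h2

private lemma good_mul {L L' : List Tm} (h : good L) (h' : good L') : good (mulL L L') := by
  intro t ht
  unfold mulL at ht
  obtain ⟨u, hu, ht⟩ := List.mem_flatMap.1 ht
  obtain ⟨v, hv, rfl⟩ := List.mem_map.1 ht
  unfold mulT
  refine ⟨?_, ?_⟩
  · have := ndvd (c := u.2.2.1 * v.2.2.2.1) (h u hu).1 (h' v hv).1
    intro h9
    apply this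
    rw [← mul_assoc]
    exact h9
  · have := ndvd (c := u.2.2.2.1 * v.2.2.1) (h u hu).2 (h' v hv).2
    intro h9
    apply this
    rw [← mul_assoc, add_comm]
    exact h9

section ops

variable {r s : ℕ}

private lemma op3_mul (hTrm : S3Trm) (a b c d a' b' c' d' : ℤ) (ha : ¬ 3 ∣ a) (hd : ¬ 3 ∣ d) (ha' : ¬ 3 ∣ a')
    (hd' : ¬ 3 ∣ d') : (op3 a b c d * op3 a' b' c' d' : Module.End (ZMod 3) (Fn3 (3 ^ r) (3 ^ s))) =
      op3 (a * a' + 9 * b * c') (a * b' + b * d') (c * a' + d * c') (9 * c * b' + d * d') := by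
  refine LinearMap.ext fun F => ?_
  exact (hTrm (ZMod 3) r s F).1 a b c d a' b' c' d' ha hd ha' hd'

private lemma opL_map (hTrm : S3Trm) (t : Tm) (ht : ¬ (3 : ℤ) ∣ t.2.1 ∧ ¬ (3 : ℤ) ∣ t.2.2.2.2) (L : List Tm)
    (hL : good L) : (opL (L.map fun t' => mulT t t') : Module.End (ZMod 3) (Fn3 (3 ^ r) (3 ^ s))) =
      (((t.1 : ℤ) : ZMod 3) • op3 t.2.1 t.2.2.1 t.2.2.2.1 t.2.2.2.2) * opL L := by
  induction L with
  | nil => simp [opL_nil]
  | cons t' L ih =>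
    have h1 := hL t' List.mem_cons_self
    rw [List.map_cons, opL_cons, opL_cons, ih fun x hx => hL x (List.mem_cons_of_mem _ hx), mul_add]
    congr 1
    rw [smul_mul_smul_comm, op3_mul hTrm _ _ _ _ _ _ _ _ ht.1 ht.2 h1.1 h1.2]
    unfold mulT
    push_cast
    rfl

private lemma opL_mul (hTrm : S3Trm) (L L' : List Tm) (hL : good L) (hL' : good L') :
    (opL (mulL L L') : Module.End (ZMod 3) (Fn3 (3 ^ r) (3 ^ s))) = opL L * opL L' := by
  induction L with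
  | nil => simp [mulL, opL_nil]
  | cons t L ih =>
    have h : mulL (t :: L) L' = (L'.map fun t' => mulT t t') ++ mulL L L' := by
      unfold mulL
      rw [List.flatMap_cons]
    rw [h, opL_app, opL_map hTrm t (hL t List.mem_cons_self) L' hL', opL_cons, add_mul,
      ih fun x hx => hL x (List.mem_cons_of_mem _ hx)]

/-- the monomials -/
private def mon (t : ℕ × ℕ × ℕ) : Module.End (ZMod 3) (Fn3 (3 ^ r) (3 ^ s)) :=
  (oD - 1) ^ t.1 * dX ^ t.2.1 * dY ^ t.2.2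

private lemma lw_zero (k : ℤ) : Lw (0 : Module.End (ZMod 3) (Fn3 (3 ^ r) (3 ^ s))) k := by
  intro d F _
  rw [LinearMap.zero_apply]
  exact Submodule.zero_mem _

private lemma lw_pow (hLow0 : S3Low0) (O : Module.End (ZMod 3) (Fn3 (3 ^ r) (3 ^ s))) (k : ℕ) (h : Lw O k) (n : ℕ) :
    Lw (O ^ n) ((k * n : ℕ) : ℤ) := by
  obtain ⟨l1, l2, l3, l4, l5, l6, l7, l8, _⟩ := hLow0 r s
  induction n with
  | zero => simpa using l6
  | succ n ih =>
    rw [pow_succ]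
    have := l1 _ _ _ _ ih h
    have e : ((k * n : ℕ) : ℤ) + k = ((k * (n + 1) : ℕ) : ℤ) := by push_cast; ring
    rw [e] at this
    exact this

private lemma lw_mon' (hLow0 : S3Low0) (k0 : ℕ) (h0 : Lw (oD - 1 : Module.End (ZMod 3) (Fn3 (3 ^ r) (3 ^ s))) k0)
    (t : ℕ × ℕ × ℕ) :
    Lw (mon t : Module.End (ZMod 3) (Fn3 (3 ^ r) (3 ^ s))) ((k0 * t.1 + t.2.1 + t.2.2 : ℕ) : ℤ) := by
  obtain ⟨l1, l2, l3, l4, l5, l6, l7, l8, _⟩ := hLow0 r s
  have h0 := lw_pow hLow0 (oD - 1 : Module.End (ZMod 3) (Fn3 (3 ^ r) (3 ^ s))) k0 h0 t.1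
  have h1 := lw_pow hLow0 (dX : Module.End (ZMod 3) (Fn3 (3 ^ r) (3 ^ s))) 1 (by exact_mod_cast l7) t.2.1
  have h2 := lw_pow hLow0 (dY : Module.End (ZMod 3) (Fn3 (3 ^ r) (3 ^ s))) 1 (by exact_mod_cast l8) t.2.2
  have h := l1 _ _ _ _ (l1 _ _ _ _ h0 h1) h2
  have e : ((k0 * t.1 : ℕ) : ℤ) + ((1 * t.2.1 : ℕ) : ℤ) + ((1 * t.2.2 : ℕ) : ℤ)
      = ((k0 * t.1 + t.2.1 + t.2.2 : ℕ) : ℤ) := by push_cast; ring
  rw [e] at h
  exact h

private lemma lw_sum (hLow0 : S3Low0) {ι : Type} (S : Finset ι) (O : ι → Module.End (ZMod 3) (Fn3 (3 ^ r) (3 ^ s)))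
    (k : ℤ) (h : ∀ i ∈ S, Lw (O i) k) : Lw (∑ i ∈ S, O i) k := by
  classical
  obtain ⟨l1, l2, _⟩ := hLow0 r s
  induction S using Finset.induction_on with
  | empty => simpa using lw_zero k
  | insert a S ha ih =>
    rw [Finset.sum_insert ha]
    exact l2 _ _ _ (h a (Finset.mem_insert_self _ _)) (ih fun i hi => h i (Finset.mem_insert_of_mem hi))

private lemma lw_sub (O O' : Module.End (ZMod 3) (Fn3 (3 ^ r) (3 ^ s))) (k : ℤ) (h : Lw O k)
    (h' : Lw O' k) : Lw (O - O') k := by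
  intro d F hF
  rw [LinearMap.sub_apply]
  exact Submodule.sub_mem _ (h d F hF) (h' d F hF)

/-- the list used to see that `oD - 1` lowers by two -/
private def LD : List Tm := [(1, -2, 1, -1, 4)]

private lemma sum_M5 (S : Finset (ℕ × ℕ × ℕ)) (hS : S ⊆ M5) (c : ℕ × ℕ × ℕ → ZMod 3) (hc : ∀ t, t ∉ S → c t = 0) :
    ∑ t ∈ M5, c t • (mon t : Module.End (ZMod 3) (Fn3 (3 ^ r) (3 ^ s))) = ∑ t ∈ S, c t • mon t := by
  refine (Finset.sum_subset hS fun t _ hn => ?_).symm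
  rw [hc t hn, zero_smul]

/-- the coefficients of the list `LD` of weight at most one -/
private def cD (t : ℕ × ℕ × ℕ) : ZMod 3 :=
  if t = (0, 0, 0) then 1 else if t = (0, 1, 0) then 1 else if t = (0, 0, 1) then -1 else if t = (1, 0, 0) then 1
    else 0

private lemma LD_coef : ∀ t ∈ M5, (1 ≤ t.2.1 + t.2.2 ∧ 2 ≤ t.1 + t.2.1 + t.2.2) ∨
    ((sS LD t.1 t.2.1 t.2.2 : ℤ) : ZMod 3) - cD t = 0 := by
  decide +kernel

/-- a weak bound for `oD - 1` can be improved -/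
private lemma wk (hLow0 : S3Low0) (hExp : S3Exp) (hLw1 : S3Lw1) (k0 : ℕ)
    (h0 : Lw (oD - 1 : Module.End (ZMod 3) (Fn3 (3 ^ r) (3 ^ s))) k0) (hk : k0 ≤ 1) :
    Lw (oD - 1 : Module.End (ZMod 3) (Fn3 (3 ^ r) (3 ^ s))) (k0 + 1 : ℕ) := by
  obtain ⟨l1, l2, l3, l4, _⟩ := hLow0 r s
  obtain ⟨-, -, w3, -⟩ := hLw1 r s
  have hL : ∀ t ∈ LD, (t.2.1 * t.2.2.2.2) % 3 = 1 := by unfold LD; decide
  have h1 : Lw ((opL LD : Module.End (ZMod 3) (Fn3 (3 ^ r) (3 ^ s))) - ∑ t ∈ M5, ((sS LD t.1 t.2.1 t.2.2 : ℤ) : ZMod 3) •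
      (mon t : Module.End (ZMod 3) (Fn3 (3 ^ r) (3 ^ s)))) 5 := by
    have := hExp r s LD hL
    unfold mon
    convert this using 2
  have e0 : (opL LD : Module.End (ZMod 3) (Fn3 (3 ^ r) (3 ^ s))) = op3 (-2) 1 (-1) 4 := by
    unfold LD
    rw [opL_cons, opL_nil]
    simp
  rw [e0] at h1
  have h2 : Lw (∑ t ∈ M5, (((sS LD t.1 t.2.1 t.2.2 : ℤ) : ZMod 3) - cD t) •
      (mon t : Module.End (ZMod 3) (Fn3 (3 ^ r) (3 ^ s)))) (k0 + 1 : ℕ) := by
    refine lw_sum hLow0 _ _ _ fun t ht => ?_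
    rcases LD_coef t ht with h9 | h9
    · have hm := lw_mon' hLow0 k0 h0 t
      refine l3 _ _ _ (l4 _ _ _ ?_ hm)
      interval_cases k0 <;> (push_cast; omega)
    · rw [h9, zero_smul]
      exact lw_zero _
  rw [sum_aux M5 (fun t => ((sS LD t.1 t.2.1 t.2.2 : ℤ) : ZMod 3)) cD
    (fun t => (mon t : Module.End (ZMod 3) (Fn3 (3 ^ r) (3 ^ s))))] at h2
  have e1 : ∑ t ∈ M5, cD t • (mon t : Module.End (ZMod 3) (Fn3 (3 ^ r) (3 ^ s))) = 1 + dX - dY + (oD - 1) := by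
    rw [sum_M5 {(0, 0, 0), (0, 1, 0), (0, 0, 1), (1, 0, 0)} (by decide) cD (fun t ht => by
      simp only [Finset.mem_insert, Finset.mem_singleton, not_or] at ht
      unfold cD
      rw [if_neg ht.1, if_neg ht.2.1, if_neg ht.2.2.1, if_neg ht.2.2.2]),
      Finset.sum_insert (by decide), Finset.sum_insert (by decide), Finset.sum_insert (by decide),
      Finset.sum_singleton]
    have c1 : cD (0, 0, 0) = 1 := by decide
    have c2 : cD (0, 1, 0) = 1 := by decide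
    have c3 : cD (0, 0, 1) = -1 := by decide
    have c4 : cD (1, 0, 0) = 1 := by decide
    rw [c1, c2, c3, c4, neg_smul3]
    unfold mon
    simp only [pow_zero, pow_one, mul_one, one_mul, one_smul]
    abel
  rw [e1] at h2
  have h3 := l2 _ _ _ (l4 _ _ ((k0 + 1 : ℕ) : ℤ) (by interval_cases k0 <;> norm_num) h1) h2
  have h4 := lw_sub _ _ _ (l4 _ _ ((k0 + 1 : ℕ) : ℤ) (by interval_cases k0 <;> norm_num) w3) h3
  have e2 : (op3 (-2) 1 (-1) 4 - 1 - dX + dY : Module.End (ZMod 3) (Fn3 (3 ^ r) (3 ^ s))) -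
      (op3 (-2) 1 (-1) 4 - ∑ t ∈ M5, ((sS LD t.1 t.2.1 t.2.2 : ℤ) : ZMod 3) • mon t +
      (∑ t ∈ M5, ((sS LD t.1 t.2.1 t.2.2 : ℤ) : ZMod 3) • mon t - (1 + dX - dY + (oD - 1)))) = oD - 1 := by abel
  rw [e2] at h4
  exact h4

private lemma lwD (hLow0 : S3Low0) (hExp : S3Exp) (hLw1 : S3Lw1) :
    Lw (oD - 1 : Module.End (ZMod 3) (Fn3 (3 ^ r) (3 ^ s))) 2 := by
  obtain ⟨l1, l2, l3, l4, l5, l6, _⟩ := hLow0 r s
  obtain ⟨w1, -⟩ := hLw1 r s
  have h0 : Lw (oD - 1 : Module.End (ZMod 3) (Fn3 (3 ^ r) (3 ^ s))) (0 : ℕ) := by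
    have := lw_sub _ _ _ (w1 4 0 0 1 (by norm_num)) l6
    exact_mod_cast this
  have h1 := wk hLow0 hExp hLw1 0 h0 (by norm_num)
  have h2 := wk hLow0 hExp hLw1 1 h1 le_rfl
  exact_mod_cast h2

private lemma lw_mon (hLow0 : S3Low0) (hExp : S3Exp) (hLw1 : S3Lw1) (t : ℕ × ℕ × ℕ) :
    Lw (mon t : Module.End (ZMod 3) (Fn3 (3 ^ r) (3 ^ s))) ((2 * t.1 + t.2.1 + t.2.2 : ℕ) : ℤ) :=
  lw_mon' hLow0 2 (by exact_mod_cast lwD hLow0 hExp hLw1) t

/-- the expansion with prescribed coefficients -/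
private lemma key (hLow0 : S3Low0) (hExp : S3Exp) (hLw1 : S3Lw1) (L : List Tm)
    (hL : ∀ t ∈ L, (t.2.1 * t.2.2.2.2) % 3 = 1) (k : ℕ) (hk : k ≤ 5) (c : ℕ × ℕ × ℕ → ZMod 3)
    (hc : ∀ t ∈ M5, 2 * t.1 + t.2.1 + t.2.2 < k → ((sS L t.1 t.2.1 t.2.2 : ℤ) : ZMod 3) = c t)
    (_hc0 : ∀ t ∈ M5, k ≤ 2 * t.1 + t.2.1 + t.2.2 → c t = 0) :
    Lw ((opL L : Module.End (ZMod 3) (Fn3 (3 ^ r) (3 ^ s))) - ∑ t ∈ M5, c t • mon t) k := by
  obtain ⟨l1, l2, l3, l4, _⟩ := hLow0 r s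
  have h0 : Lw ((opL L : Module.End (ZMod 3) (Fn3 (3 ^ r) (3 ^ s))) - ∑ t ∈ M5, ((sS L t.1 t.2.1 t.2.2 : ℤ) : ZMod 3) •
      (mon t : Module.End (ZMod 3) (Fn3 (3 ^ r) (3 ^ s)))) 5 := by
    have := hExp r s L hL
    unfold mon
    convert this using 2
  have h1 := l4 _ _ (k : ℤ) (by exact_mod_cast hk) h0
  have h2 : Lw (∑ t ∈ M5, (((sS L t.1 t.2.1 t.2.2 : ℤ) : ZMod 3) - c t) •
      (mon t : Module.End (ZMod 3) (Fn3 (3 ^ r) (3 ^ s)))) k := by
    refine lw_sum hLow0 _ _ _ fun t ht => ?_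
    by_cases hw : 2 * t.1 + t.2.1 + t.2.2 < k
    · rw [hc t ht hw, sub_self, zero_smul]
      exact lw_zero _
    · exact l3 _ _ _ (l4 _ _ (k : ℤ) (by exact_mod_cast not_lt.1 hw) (lw_mon hLow0 hExp hLw1 t))
  have h3 := l2 _ _ _ h1 h2
  rw [sum_aux M5 (fun t => ((sS L t.1 t.2.1 t.2.2 : ℤ) : ZMod 3)) c
    (fun t => (mon t : Module.End (ZMod 3) (Fn3 (3 ^ r) (3 ^ s)))), sub_add_sub_cancel] at h3
  exact h3

private lemma cast3 {S C : ℤ} (h : (3 : ℤ) ∣ S - C) : (S : ZMod 3) = (C : ZMod 3) := by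
  have h1 := (ZMod.intCast_zmod_eq_zero_iff_dvd (S - C) 3).2 (by exact_mod_cast h)
  push_cast at h1
  exact sub_eq_zero.1 h1

/-- the coefficients of the first row of `T_5` -/
private def c5 (f : Fin 5) (t : ℕ × ℕ × ℕ) : ℤ :=
  if f = 1 then (if t = (0, 1, 0) then 2 else if t = (0, 0, 1) then 1 else 0)
    else if f = 2 then (if t = (0, 1, 0) then 1 else if t = (0, 0, 1) then 2 else 0) else 0

private lemma c5_zero (f : Fin 5) (t : ℕ × ℕ × ℕ) (h1 : t ≠ (0, 1, 0)) (h2 : t ≠ (0, 0, 1)) : c5 f t = 0 := by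
  unfold c5
  simp only [if_neg h1, if_neg h2, ite_self]

/-- the leading operator of the entry `f` of the first row -/
private def G5 (f : Fin 5) : Module.End (ZMod 3) (Fn3 (3 ^ r) (3 ^ s)) :=
  ((c5 f (0, 1, 0) : ℤ) : ZMod 3) • dX + ((c5 f (0, 0, 1) : ℤ) : ZMod 3) • dY

private lemma lead (hLow0 : S3Low0) (hExp : S3Exp) (hLw1 : S3Lw1) (L : List Tm)
    (hL : ∀ t ∈ L, (t.2.1 * t.2.2.2.2) % 3 = 1) (f : Fin 5)
    (h : ∀ t ∈ M5, 2 * t.1 + t.2.1 + t.2.2 ≤ 1 → (3 : ℤ) ∣ sS L t.1 t.2.1 t.2.2 - c5 f t) :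
    Lw ((opL L : Module.End (ZMod 3) (Fn3 (3 ^ r) (3 ^ s))) - G5 f) 2 := by
  have h1 := key (r := r) (s := s) hLow0 hExp hLw1 L hL 2 (by norm_num) (fun t => ((c5 f t : ℤ) : ZMod 3))
    (fun t ht hw => cast3 (h t ht (by omega)))
    (fun t ht hw => by
      rw [c5_zero f t (by rintro rfl; norm_num at hw) (by rintro rfl; norm_num at hw)]
      simp)
  rw [sum_M5 {(0, 1, 0), (0, 0, 1)} (by decide) _ (fun t ht => by
    rw [Finset.mem_insert, Finset.mem_singleton, not_or] at ht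
    rw [c5_zero f t ht.1 ht.2]
    simp), Finset.sum_insert (by decide), Finset.sum_singleton] at h1
  have e : ((c5 f (0, 1, 0) : ℤ) : ZMod 3) • (mon (0, 1, 0) : Module.End (ZMod 3) (Fn3 (3 ^ r) (3 ^ s))) +
      ((c5 f (0, 0, 1) : ℤ) : ZMod 3) • mon (0, 0, 1) = G5 f := by
    unfold mon G5
    simp only [pow_zero, one_mul, pow_one, mul_one]
  rw [e] at h1
  exact_mod_cast h1

private lemma low1 (hLow0 : S3Low0) (hExp : S3Exp) (hLw1 : S3Lw1) (L : List Tm)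
    (hL : ∀ t ∈ L, (t.2.1 * t.2.2.2.2) % 3 = 1) (h : (3 : ℤ) ∣ sS L 0 0 0) :
    Lw (opL L : Module.End (ZMod 3) (Fn3 (3 ^ r) (3 ^ s))) 1 := by
  have h1 := key (r := r) (s := s) hLow0 hExp hLw1 L hL 1 (by norm_num) (fun _ => 0)
    (fun t ht hw => by
      have h0 : t.1 = 0 ∧ t.2.1 = 0 ∧ t.2.2 = 0 := by omega
      rw [h0.1, h0.2.1, h0.2.2]
      have := cast3 (S := sS L 0 0 0) (C := 0) (by rw [sub_zero]; exact h)
      rw [this]
      simp)
    (fun _ _ _ => rfl)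
  simp only [zero_smul, Finset.sum_const_zero, sub_zero] at h1
  exact_mod_cast h1

private lemma goodB (hg : TCeG) (i f : Fin 5) : good (B5T i f) := by
  obtain ⟨g1, g2, g3⟩ := hg
  have hm : ∀ ρ : Fin 3, good (mulL (m5T i ρ) (relT ρ f)) := fun ρ =>
    good_mul (fun t ht => (g3 i ρ).2.2.2 t ht) (fun t ht => g2 ρ f t ht)
  unfold B5T rmT
  exact good_app (fun t ht => (g1 i f).1 t ht) (good_sc _ (good_app (good_app (hm 0) (hm 1)) (hm 2)))

/-- the rows modulo the relations -/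
private lemma row (ht : S3Trm) (hr : TRll) (hg : TCeG) (F : Fin 5 → Fn3 (3 ^ r) (3 ^ s)) (hF : RelT F) (i : Fin 5) :
    ∑ f : Fin 5, opL (B5T i f) (F f) = ∑ f : Fin 5, opL (T5T i f) (F f) := by
  have hrel := hr r s F hF
  obtain ⟨g1, g2, g3⟩ := hg
  have hm : ∀ (ρ : Fin 3) (f : Fin 5), opL (mulL (m5T i ρ) (relT ρ f)) (F f) =
      opL (m5T i ρ) (opL (relT ρ f) (F f)) := by
    intro ρ f
    rw [opL_mul ht _ _ (fun t ht => (g3 i ρ).2.2.2 t ht) (fun t ht => g2 ρ f t ht)]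
    rfl
  have hz : ∀ ρ : Fin 3, ∑ f : Fin 5, opL (mulL (m5T i ρ) (relT ρ f)) (F f) = 0 := by
    intro ρ
    rw [Finset.sum_congr rfl fun f _ => hm ρ f, ← map_sum, hrel ρ, map_zero]
  have e : ∀ f : Fin 5, opL (B5T i f) (F f) = opL (T5T i f) (F f) -
      (opL (mulL (m5T i 0) (relT 0 f)) (F f) + opL (mulL (m5T i 1) (relT 1 f)) (F f) +
        opL (mulL (m5T i 2) (relT 2 f)) (F f)) := by
    intro f
    unfold B5T rmT
    rw [opL_app, opL_sc, opL_app, opL_app, LinearMap.add_apply, LinearMap.neg_apply, LinearMap.add_apply,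
      LinearMap.add_apply, ← sub_eq_add_neg]
  rw [Finset.sum_congr rfl fun f _ => e f, Finset.sum_sub_distrib, Finset.sum_add_distrib, Finset.sum_add_distrib,
    hz 0, hz 1, hz 2, add_zero, add_zero, sub_zero]

end ops

/-- Module Ld5. -/
theorem hLd5 (ht : S3Trm) (hl : S3Low0) (he : S3Exp) (h1 : S3Lw1) (hs : TSpl) (hr : TRll) (hg : TCeG) (hc : TCe5)
    (hw : TLwt) : TLd5 := by
  intro r s d F hR hF
  obtain ⟨l1, l2, l3, l4, l5, l6, l7, l8, _⟩ := hl r s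
  obtain ⟨-, -, -, -, wN, -, -⟩ := h1 r s
  obtain ⟨-, -, -, wE, -⟩ := hw r s
  have spl := fun i f => hs r s (B5T i f) (fun t ht => goodB hg i f t ht)
  have gen : ∀ (O : Fin 5 → Module.End (ZMod 3) (Fn3 (3 ^ r) (3 ^ s))) (k : ℤ), (∀ f, Lw (O f) k) →
      ∑ f, O f (F f) ∈ Wd3 (d - k) := fun O k h => Submodule.sum_mem _ fun f _ => h f d (F f) (hF f)
  refine ⟨fun i => ?_, fun hd => ?_⟩
  · rw [← row ht hr hg F hR i]
    refine gen _ 1 fun f => ?_
    rw [(spl i f).1]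
    have hA := low1 (r := r) (s := s) hl he h1 (pA (B5T i f)) (spl i f).2.1 (hc.2 i f).1
    have hB := low1 (r := r) (s := s) hl he h1 (pB (B5T i f)) (spl i f).2.2 (hc.2 i f).2
    have hNB := l1 _ _ _ _ wN hB
    rw [zero_add] at hNB
    exact l2 _ _ _ hA hNB
  · have hA := gen _ 2 fun f => lead (r := r) (s := s) hl he h1 (pA (B5T 0 f)) (spl 0 f).2.1 f
      (fun t ht hw => (hc.1 f t ht hw).1)
    have hB := gen _ 2 fun f => lead (r := r) (s := s) hl he h1 (pB (B5T 0 f)) (spl 0 f).2.2 f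
      (fun t ht hw => (hc.1 f t ht hw).2)
    have hNB := wN _ _ hB
    rw [sub_zero] at hNB
    set g : Fn3 (3 ^ r) (3 ^ s) := (dX - dY : Module.End (ZMod 3) (Fn3 (3 ^ r) (3 ^ s))) (F 1 - F 2) with hgd
    have eG : ∑ f : Fin 5, G5 (r := r) (s := s) f (F f) = -g := by
      rw [Fin.sum_univ_five]
      have z0 : (G5 0 : Module.End (ZMod 3) (Fn3 (3 ^ r) (3 ^ s))) = 0 := by
        unfold G5
        have a1 : ((c5 0 (0, 1, 0) : ℤ) : ZMod 3) = 0 := by decide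
        have a2 : ((c5 0 (0, 0, 1) : ℤ) : ZMod 3) = 0 := by decide
        rw [a1, a2, zero_smul, zero_smul, add_zero]
      have z1 : (G5 1 : Module.End (ZMod 3) (Fn3 (3 ^ r) (3 ^ s))) = -dX + dY := by
        unfold G5
        have a1 : ((c5 1 (0, 1, 0) : ℤ) : ZMod 3) = -1 := by decide
        have a2 : ((c5 1 (0, 0, 1) : ℤ) : ZMod 3) = 1 := by decide
        rw [a1, a2, neg_smul3, one_smul, one_smul]
      have z2 : (G5 2 : Module.End (ZMod 3) (Fn3 (3 ^ r) (3 ^ s))) = dX - dY := by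
        unfold G5
        have a1 : ((c5 2 (0, 1, 0) : ℤ) : ZMod 3) = 1 := by decide
        have a2 : ((c5 2 (0, 0, 1) : ℤ) : ZMod 3) = -1 := by decide
        rw [a1, a2, neg_smul3, one_smul, one_smul, sub_eq_add_neg]
      have z3 : (G5 3 : Module.End (ZMod 3) (Fn3 (3 ^ r) (3 ^ s))) = 0 := by
        unfold G5
        have a1 : ((c5 3 (0, 1, 0) : ℤ) : ZMod 3) = 0 := by decide
        have a2 : ((c5 3 (0, 0, 1) : ℤ) : ZMod 3) = 0 := by decide
        rw [a1, a2, zero_smul, zero_smul, add_zero]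
      have z4 : (G5 4 : Module.End (ZMod 3) (Fn3 (3 ^ r) (3 ^ s))) = 0 := by
        unfold G5
        have a1 : ((c5 4 (0, 1, 0) : ℤ) : ZMod 3) = 0 := by decide
        have a2 : ((c5 4 (0, 0, 1) : ℤ) : ZMod 3) = 0 := by decide
        rw [a1, a2, zero_smul, zero_smul, add_zero]
      rw [z0, z1, z2, z3, z4, hgd, LinearMap.sub_apply, LinearMap.add_apply, LinearMap.neg_apply,
        LinearMap.sub_apply, LinearMap.zero_apply, LinearMap.zero_apply, LinearMap.zero_apply, map_sub, map_sub]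
      abel
    have hgW : g ∈ Wd3 (d - 1) := by
      have hXY := lw_sub _ _ _ l7 l8
      exact hXY d _ (Submodule.sub_mem _ (hF 1) (hF 2))
    have hE := wE (d - 1) g hgW (hd.sub_odd odd_one)
    have ed : d - 1 - 1 = d - 2 := by ring
    rw [ed] at hE
    have e1 : ∑ f : Fin 5, (opL (pA (B5T 0 f)) - G5 f : Module.End (ZMod 3) (Fn3 (3 ^ r) (3 ^ s))) (F f) =
        ∑ f : Fin 5, opL (pA (B5T 0 f)) (F f) + g := by
      rw [← sub_neg_eq_add, ← eG, ← Finset.sum_sub_distrib]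
      rfl
    have e2 : oN (∑ f : Fin 5, (opL (pB (B5T 0 f)) - G5 f : Module.End (ZMod 3) (Fn3 (3 ^ r) (3 ^ s))) (F f)) =
        oN (∑ f : Fin 5, opL (pB (B5T 0 f)) (F f)) + oN g := by
      rw [← map_add]
      congr 1
      rw [← sub_neg_eq_add, ← eG, ← Finset.sum_sub_distrib]
      rfl
    have e3 : ∑ f : Fin 5, opL (T5T 0 f) (F f) = ∑ f : Fin 5, opL (pA (B5T 0 f)) (F f) +
        oN (∑ f : Fin 5, opL (pB (B5T 0 f)) (F f)) := by
      rw [← row ht hr hg F hR 0, map_sum, ← Finset.sum_add_distrib]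
      refine Finset.sum_congr rfl fun f _ => ?_
      rw [(spl 0 f).1]
      rfl
    rw [e1] at hA
    rw [e2] at hNB
    have h3 := Submodule.sub_mem _ (Submodule.add_mem _ hA hNB) hE
    have e4 : ∑ f : Fin 5, opL (pA (B5T 0 f)) (F f) + g + (oN (∑ f : Fin 5, opL (pB (B5T 0 f)) (F f)) + oN g) -
        (oN g - g) = ∑ f : Fin 5, opL (T5T 0 f) (F f) - g := by
      rw [e3]
      have h3g : g + g = -g := by
        funext x y
        have : ∀ a : ZMod 3, a + a = -a := by decide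
        exact this (g x y)
      have : ∀ A B C : Fn3 (3 ^ r) (3 ^ s), A + g + (B + C) - (C - g) = A + B + (g + g) := by
        intro A B C
        abel
      rw [this, h3g, ← sub_eq_add_neg]
    rw [e4] at h3
    exact h3

end Pool.Agent.Helper88.TH3
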